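import Pool.Agent.H798.BV.Stm4

set_option autoImplicit false

/-!
helper34: (EF), the choice of the parameters.
-/

open Filter Topology

namespace Pool.Agent.H34.BV

open Pool.Agent.H798.BV

theorem t_EF : S_EF := by
  have h1 : ∀ᶠ y : ℝ in atTop, 230400 * Real.log y ^ 2 ≤ y ∧ 3 ≤ y := by
    have h0 := (Real.isLittleO_pow_log_id_atTop (n := 2)).bound (show (0:ℝ) < 1 / 230400 by norm_num)
    filter_upwards [h0, eventually_ge_atTop 3] with y hy h3
    rw [Real.norm_of_nonneg (sq_nonneg _), id, Real.norm_of_nonneg (by linarith)] at hy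
    exact ⟨by linarith, h3⟩
  have h2 : Tendsto (fun m : ℕ => (m : ℝ) ^ (1 / 6 : ℝ)) atTop atTop :=
    (tendsto_rpow_atTop (by norm_num)).comp tendsto_natCast_atTop_atTop
  obtain ⟨N, hN⟩ := eventually_atTop.1 (h2.eventually h1)
  refine ⟨max N 1, le_max_right _ _, ?_⟩
  intro m δ hm hδ hδ1 hδm
  obtain ⟨hy1, hy3⟩ := hN m ((le_max_left _ _).trans hm)
  set y : ℝ := (m : ℝ) ^ (1 / 6 : ℝ) with hy
  have hy0 : 0 < y := by linarith
  have hy6 : y ^ 6 = m := by
    rw [hy, ← Real.rpow_natCast, ← Real.rpow_mul (Nat.cast_nonneg m)]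
    norm_num
  have hdy : 1 ≤ δ * y := by
    by_contra h
    rw [not_le] at h
    have h3 : (δ * y) ^ 6 < 1 := pow_lt_one₀ (by positivity) h (by norm_num)
    rw [mul_pow, hy6] at h3
    linarith
  have hm729 : 729 ≤ (m : ℝ) := by
    rw [← hy6]
    calc (729 : ℝ) = 3 ^ 6 := by norm_num
      _ ≤ y ^ 6 := by gcongr
  have hm0 : (0 : ℝ) < m := by linarith
  obtain ⟨L, hLd⟩ : ∃ L : ℝ, L = Real.log m := ⟨_, rfl⟩
  have hL : L = 6 * Real.log y := by
    rw [hLd, ← hy6, Real.log_pow]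
    norm_num
  have hL1 : 1 ≤ L := by
    rw [hLd, Real.le_log_iff_exp_le hm0]
    linarith [Real.exp_one_lt_d9]
  have hLpos : 0 < L := by linarith
  have hLy : 6400 * L ^ 2 ≤ y := by
    have h3 : 6400 * L ^ 2 = 230400 * Real.log y ^ 2 := by
      rw [hL]
      ring
    rw [h3]
    exact hy1
  have hL4 : 4 * L ≤ y ^ 4 := by
    have h3 : Real.log y ≤ y := (Real.log_le_sub_one_of_pos hy0).trans (by linarith)
    have h4 : 24 * y ≤ y ^ 4 := by
      have h5 : (24 : ℝ) ≤ y ^ 3 := by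
        calc (24 : ℝ) ≤ 3 ^ 3 := by norm_num
          _ ≤ y ^ 3 := by gcongr
      calc 24 * y ≤ y ^ 3 * y := by gcongr
        _ = y ^ 4 := by ring
    rw [hL]
    linarith
  -- powers of `δ` times `m`
  have hd2 : y ^ 4 ≤ δ ^ 2 * m := by
    have h3 : δ ^ 2 * (m : ℝ) = (δ * y) ^ 2 * y ^ 4 := by
      rw [← hy6]
      ring
    rw [h3]
    exact le_mul_of_one_le_left (by positivity) (one_le_pow₀ hdy)
  have hd5 : y ≤ δ ^ 5 * m := by
    have h3 : δ ^ 5 * (m : ℝ) = (δ * y) ^ 5 * y := by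
      rw [← hy6]
      ring
    rw [h3]
    exact le_mul_of_one_le_left (by positivity) (one_le_pow₀ hdy)
  have hT2 : 4 * L ≤ δ ^ 2 * m := hL4.trans hd2
  obtain ⟨T, hT⟩ : ∃ T : ℝ, T = 4 / δ * L := ⟨_, rfl⟩
  obtain ⟨η, hη⟩ : ∃ η : ℝ, η = δ ^ 4 / (1600 * L ^ 2) := ⟨_, rfl⟩
  have hη0 : 0 < η := by
    rw [hη]
    positivity
  have hT0 : 0 < T := by
    rw [hT]
    positivity
  have e1 : η * T = δ ^ 3 / (400 * L) := by
    rw [hη, hT]
    field_simp
    ring
  have e2 : η * T ^ 2 = δ ^ 2 / 100 := by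
    rw [hη, hT]
    field_simp
    ring
  have hδ2 : δ ^ 2 ≤ 1 := pow_le_one₀ hδ.le hδ1
  have hδ3 : δ ^ 3 ≤ 1 := pow_le_one₀ hδ.le hδ1
  refine ⟨η, T, hη0, hT0.le, ?_, ?_, ?_, ?_, ?_, ?_⟩
  · rw [e1, div_le_iff₀ (by positivity)]
    linarith
  · rw [e2]
    linarith
  · rw [hT, div_mul_eq_mul_div, div_le_iff₀ hδ]
    have h3 : δ * (m : ℝ) * δ = δ ^ 2 * m := by ring
    rw [h3]
    exact hT2
  · have h3 : η * δ * m = δ ^ 5 * m / (1600 * L ^ 2) := by
      rw [hη]
      field_simp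
    rw [h3, le_div_iff₀ (by positivity)]
    linarith
  · have h3 : δ * T / 2 = 2 * L := by
      rw [hT]
      field_simp
      ring
    have h4 : Real.exp (-(δ * T / 2)) = 1 / (m : ℝ) ^ 2 := by
      rw [h3, Real.exp_neg, hLd, two_mul, Real.exp_add, Real.exp_log hm0]
      field_simp
    have h5 : 4 * η * T ^ 2 / δ = δ / 25 := by
      have h6 : 4 * η * T ^ 2 = 4 * (η * T ^ 2) := by ring
      rw [h6, e2]
      field_simp
      ring
    have h7 : 3 / δ * Real.exp (-(δ * T / 2)) ≤ δ / 25 := by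
      rw [h4, div_mul_div_comm, mul_one, div_le_div_iff₀ (by positivity) (by norm_num)]
      have h8 : δ * (δ * (m : ℝ) ^ 2) = δ ^ 2 * m * m := by ring
      rw [h8]
      have h9 : (4 : ℝ) * 729 ≤ δ ^ 2 * m * m := by
        have h10 : (4 : ℝ) ≤ δ ^ 2 * m := by linarith
        calc (4 : ℝ) * 729 ≤ δ ^ 2 * m * 729 := by linarith
          _ ≤ δ ^ 2 * m * m := by gcongr
      linarith
    rw [h5]
    linarith
  · have hδm' : 4 * L ≤ δ * m := by
      refine hT2.trans ?_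
      have h3 : δ ^ 2 * (m : ℝ) = δ * (δ * m) := by ring
      rw [h3]
      exact mul_le_of_le_one_left (by positivity) hδ1
    have h3 : (1 - δ) ^ m ≤ Real.exp (-(δ * m)) := by
      have h4 : 1 - δ ≤ Real.exp (-δ) := by
        have := Real.add_one_le_exp (-δ)
        linarith
      calc (1 - δ) ^ m ≤ Real.exp (-δ) ^ m := pow_le_pow_left₀ (by linarith) h4 m
        _ = Real.exp (-(δ * m)) := by
          rw [← Real.exp_nat_mul]
          congr 1
          ring
    have h4 : Real.exp (-(δ * m)) ≤ 1 / (m : ℝ) ^ 4 := by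
      have h5 : Real.exp (-(δ * m)) ≤ Real.exp (-(4 * L)) := Real.exp_le_exp.2 (by linarith)
      refine h5.trans (le_of_eq ?_)
      rw [Real.exp_neg, hLd, show (4 : ℝ) * Real.log m = ((4 : ℕ) : ℝ) * Real.log m by norm_num,
        Real.exp_nat_mul, Real.exp_log hm0, one_div]
    have h5 : 1 / (m : ℝ) ≤ δ := by
      rw [div_le_iff₀ hm0]
      have h6 : δ ^ 6 * (m : ℝ) ≤ δ * m := by
        have h7 : δ ^ 6 ≤ δ := by
          calc δ ^ 6 = δ ^ 5 * δ := by ring
            _ ≤ 1 * δ := by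
              gcongr
              exact pow_le_one₀ hδ.le hδ1
            _ = δ := one_mul _
        gcongr
      linarith
    have h6 : 1 / (m : ℝ) ^ 4 < 1 / m / 8 := by
      rw [div_div, one_div_lt_one_div (by positivity) (by positivity)]
      have h7 : (m : ℝ) ^ 4 = m * m ^ 3 := by ring
      rw [h7]
      have h8 : (8 : ℝ) < m ^ 3 := by
        calc (8 : ℝ) < 729 ^ 3 := by norm_num
          _ ≤ m ^ 3 := by gcongr
      gcongr
    linarith

end Pool.Agent.H34.BV
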